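import Pool.Agent.Helper802.HolderExt.Glue

open MeasureTheory Real Filter Topology

noncomputable section

namespace Pool.Agent.Helper802.HolderExt

universe u v

variable {V : Type v} [NormedAddCommGroup V] [InnerProductSpace ℝ V]

theorem piece_ext [FiniteDimensional ℝ V] [MeasurableSpace V] [BorelSpace V]
    {M : Type u} [MetricSpace M] {α : ℝ} (h12 : 1 / 2 < α) (h1 : α < 1)
    (hN : 1 ≤ Module.finrank ℝ V) {E : Set M} {φ : E → V}
    (hφ : ∀ x y : E, ‖φ x - φ y‖ ≤ dist (x : M) (y : M) ^ α) (e0 : E) (S : Finset M)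
    (hS : (e0 : M) ∈ S) :
    ∃ ψ : M → V, (∀ x : E, (x : M) ∈ S → ψ x = φ x) ∧
      (∀ f ∈ S, ∀ g ∈ S, ‖ψ f - ψ g‖ ≤ (AA V α + 377) * dist f g ^ α) ∧
      (∀ f, f ∉ S → ψ f = φ e0) := by
  classical
  obtain ⟨ψ, ha, hb⟩ := finite_ext (V := V) (M := {x : M // x ∈ S}) h12 h1 hN
    (E := Finset.univ.filter (fun x : {x : M // x ∈ S} => (x : M) ∈ E))
    (φ := fun x => if h : (x : M) ∈ E then φ ⟨x, h⟩ else 0)
    ⟨⟨e0, hS⟩, by simp⟩
    (fun x hx y hy => by
      have hx' : (x : M) ∈ E := by simpa using hx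
      have hy' : (y : M) ∈ E := by simpa using hy
      rw [dif_pos hx', dif_pos hy']
      exact hφ ⟨x, hx'⟩ ⟨y, hy'⟩)
  refine ⟨fun f => if h : f ∈ S then ψ ⟨f, h⟩ else φ e0, ?_, ?_, ?_⟩
  · intro x hx
    simp only
    rw [dif_pos hx, ha ⟨x, hx⟩ (by simp), dif_pos x.2]
  · intro f hf g hg
    simp only
    rw [dif_pos hf, dif_pos hg]
    exact hb ⟨f, hf⟩ ⟨g, hg⟩
  · intro f hf
    exact dif_neg hf

theorem general_ext [FiniteDimensional ℝ V] [MeasurableSpace V] [BorelSpace V]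
    {M : Type u} [MetricSpace M] {α : ℝ} (h12 : 1 / 2 < α) (h1 : α < 1)
    (hN : 1 ≤ Module.finrank ℝ V) {E : Set M} {φ : E → V}
    (hφ : ∀ x y : E, ‖φ x - φ y‖ ≤ dist (x : M) (y : M) ^ α) :
    ∃ ψ : M → V, (∀ x : E, ψ x = φ x) ∧
      ∀ f g, ‖ψ f - ψ g‖ ≤ (AA V α + 377) * dist f g ^ α := by
  classical
  have hA : 0 ≤ AA V α + 377 := by
    unfold AA
    have := bb_pos V
    positivity
  rcases E.eq_empty_or_nonempty with hE | ⟨e0', he0⟩
  · refine ⟨fun _ => 0, fun x => ?_, fun f g => ?_⟩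
    · exact absurd x.2 (Set.eq_empty_iff_forall_notMem.1 hE x)
    · simp only [sub_zero, norm_zero]
      positivity
  let e0 : E := ⟨e0', he0⟩
  have hp : ∀ S : Finset M, ∃ ψ : M → V, (∀ x : E, (x : M) ∈ S → ψ x = φ x) ∧
      (∀ f ∈ S, ∀ g ∈ S, ‖ψ f - ψ g‖ ≤ (AA V α + 377) * dist f g ^ α) ∧
      (∀ f, ψ f ∈ Metric.closedBall (φ e0) ((AA V α + 377) * dist f (e0 : M) ^ α)) := by
    intro S
    obtain ⟨ψ, ha, hb, hc⟩ := piece_ext h12 h1 hN hφ e0 (insert (e0 : M) S)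
      (Finset.mem_insert_self _ _)
    refine ⟨ψ, fun x hx => ha x (Finset.mem_insert_of_mem hx),
      fun f hf g hg => hb f (Finset.mem_insert_of_mem hf) g (Finset.mem_insert_of_mem hg),
      fun f => ?_⟩
    rw [Metric.mem_closedBall, dist_eq_norm]
    by_cases hf : f ∈ insert (e0 : M) S
    · have h2 := hb f hf e0 (Finset.mem_insert_self _ _)
      rwa [ha e0 (Finset.mem_insert_self _ _)] at h2
    · rw [hc f hf, sub_self, norm_zero]
      positivity
  choose Ψ Ha Hb Hc using hp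
  let U : Ultrafilter (Finset M) := Ultrafilter.of atTop
  have hU : (U : Filter (Finset M)) ≤ atTop := Ultrafilter.of_le _
  have hlim : ∀ f : M, ∃ v : V, Tendsto (fun S => Ψ S f) U (𝓝 v) := by
    intro f
    obtain ⟨v, -, hv⟩ := (isCompact_closedBall (φ e0)
      ((AA V α + 377) * dist f (e0 : M) ^ α)).ultrafilter_le_nhds (U.map fun S => Ψ S f) (by
        rw [le_principal_iff, Ultrafilter.coe_map, mem_map]
        exact Filter.Eventually.of_forall fun S => Hc S f)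
    exact ⟨v, hv⟩
  choose ψ hψ using hlim
  have hev : ∀ x : M, ∀ᶠ S in (U : Filter (Finset M)), x ∈ S := fun x =>
    hU ((eventually_ge_atTop ({x} : Finset M)).mono fun S hS => hS (Finset.mem_singleton_self x))
  refine ⟨ψ, fun x => ?_, fun f g => ?_⟩
  · refine tendsto_nhds_unique (hψ x) ((tendsto_congr' ?_).2 tendsto_const_nhds)
    filter_upwards [hev x] with S hS using Ha S x hS
  · refine le_of_tendsto ((hψ f).sub (hψ g)).norm ?_
    filter_upwards [hev f, hev g] with S hf hg using Hb S f hf g hg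

end Pool.Agent.Helper802.HolderExt
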