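import Mathlib

open MeasureTheory Real

noncomputable section

namespace Pool.Agent.Helper802.HolderExt

variable {V : Type*} [NormedAddCommGroup V] [InnerProductSpace ℝ V] [FiniteDimensional ℝ V]
  [MeasurableSpace V] [BorelSpace V]

/-- integrability of the Gaussian -/
theorem integrable_gauss {a : ℝ} (ha : 0 < a) :
    Integrable (fun v : V => rexp (-a * ‖v‖ ^ 2)) := by
  have h := GaussianFourier.integrable_cexp_neg_mul_sq_norm_add (V := V) (b := (a : ℂ))
    (by simpa using ha) 0 (0 : V)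
  have h2 := h.norm
  refine h2.congr (Filter.Eventually.of_forall fun v => ?_)
  simp only [zero_mul, add_zero]
  rw [Complex.norm_exp]
  congr 1
  have : (-(a : ℂ) * (‖v‖ : ℂ) ^ 2) = ((-a * ‖v‖ ^ 2 : ℝ) : ℂ) := by push_cast; ring
  rw [this, Complex.ofReal_re]

variable (V) in
/-- the inverse width -/
def bb : ℝ := (Module.finrank ℝ V : ℝ) + 1

variable (V) in
theorem bb_pos : 0 < bb V := by unfold bb; positivity

variable (V) in
/-- the normalising constant -/
def ZZ : ℝ := ∫ v : V, rexp (-(bb V) * ‖v‖ ^ 2)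

variable (V) in
theorem ZZ_eq : ZZ V = (π / bb V) ^ (Module.finrank ℝ V / 2 : ℝ) :=
  GaussianFourier.integral_rexp_neg_mul_sq_norm (bb_pos V)

variable (V) in
theorem ZZ_pos : 0 < ZZ V := by
  rw [ZZ_eq]
  have := bb_pos V
  positivity

/-- the kernel -/
def eta (z : V) : ℝ := (ZZ V)⁻¹ * rexp (-(bb V) * ‖z‖ ^ 2)

theorem eta_nonneg (z : V) : 0 ≤ eta z := by
  unfold eta
  have := ZZ_pos V
  positivity

theorem eta_continuous : Continuous (eta : V → ℝ) := by
  unfold eta
  fun_prop

theorem integrable_eta : Integrable (eta : V → ℝ) :=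
  (integrable_gauss (bb_pos V)).const_mul _

theorem integral_eta : ∫ z : V, eta z = 1 := by
  unfold eta
  rw [integral_const_mul]
  exact inv_mul_cancel₀ (ZZ_pos V).ne'

theorem exp_mul_eta (z : V) : rexp (‖z‖ ^ 2) * eta z =
    (ZZ V)⁻¹ * rexp (-(Module.finrank ℝ V : ℝ) * ‖z‖ ^ 2) := by
  unfold eta bb
  rw [mul_left_comm, ← Real.exp_add]
  congr 2
  ring

theorem integrable_exp_eta (hN : 1 ≤ Module.finrank ℝ V) :
    Integrable (fun z : V => rexp (‖z‖ ^ 2) * eta z) := by
  simp_rw [exp_mul_eta]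
  refine (integrable_gauss ?_).const_mul _
  exact_mod_cast hN

theorem integral_exp_eta_le (hN : 1 ≤ Module.finrank ℝ V) :
    ∫ z : V, rexp (‖z‖ ^ 2) * eta z ≤ 2 := by
  have hN0 : (0 : ℝ) < Module.finrank ℝ V := by exact_mod_cast hN
  simp_rw [exp_mul_eta]
  rw [integral_const_mul, GaussianFourier.integral_rexp_neg_mul_sq_norm hN0, ZZ_eq]
  set N : ℝ := (Module.finrank ℝ V : ℝ) with hNdef
  have hb : bb V = N + 1 := rfl
  rw [hb, ← Real.inv_rpow (by positivity), ← Real.mul_rpow (by positivity) (by positivity)]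
  have h1 : (π / (N + 1))⁻¹ * (π / N) = 1 + 1 / N := by
    have := Real.pi_pos
    field_simp
  rw [h1]
  have h2 : 1 + 1 / N ≤ rexp (1 / N) := by
    have := Real.add_one_le_exp (1 / N)
    linarith
  calc (1 + 1 / N) ^ (N / 2) ≤ (rexp (1 / N)) ^ (N / 2) :=
        Real.rpow_le_rpow (by positivity) h2 (by positivity)
    _ = rexp (1 / 2) := by
        rw [← Real.exp_mul]
        congr 1
        field_simp
    _ ≤ 2 := by
        have h3 : rexp (1/2) * rexp (1/2) = rexp 1 := by
          rw [← Real.exp_add]; norm_num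
        have h4 : rexp 1 < 2.7182818286 := Real.exp_one_lt_d9
        nlinarith [Real.exp_pos (1/2 : ℝ)]

end Pool.Agent.Helper802.HolderExt
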