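import Pool.Agent.Helper802.HolderExt.Scaled

open MeasureTheory Real

noncomputable section

namespace Pool.Agent.Helper802.HolderExt

theorem log_facts {r : ℝ} (hr : 0 < r) :
    (2 : ℝ) ^ Int.log 2 r ≤ r ∧ r < 2 * (2 : ℝ) ^ Int.log 2 r := by
  have h1 := Int.zpow_log_le_self (b := 2) (by norm_num) hr
  have h2 := Int.lt_zpow_succ_log_self (b := 2) (by norm_num) r
  rw [zpow_add₀ (by norm_num)] at h2
  push_cast at h1 h2
  constructor
  · exact h1
  · linarith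

theorem frac_mul {t u α : ℝ} (ht : 0 ≤ t) (hu : 0 < u) (htu : t ≤ u) (h1 : α ≤ 1) :
    t / u * u ^ α ≤ t ^ α := by
  have h2 : t / u ≤ (t / u) ^ α := by
    rcases ht.eq_or_lt with rfl | h
    · simp only [zero_div]; positivity
    · have := Real.rpow_le_rpow_of_exponent_ge (div_pos h hu) ((div_le_one hu).2 htu) h1
      rwa [Real.rpow_one] at this
  calc t / u * u ^ α ≤ (t / u) ^ α * u ^ α := mul_le_mul_of_nonneg_right h2 (by positivity)
    _ = t ^ α := by rw [← Real.mul_rpow (by positivity) hu.le, div_mul_cancel₀ _ hu.ne']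

theorem mul_rpow_le {c t α : ℝ} (hc : 1 ≤ c) (ht : 0 ≤ t) (h1 : α ≤ 1) :
    (c * t) ^ α ≤ c * t ^ α := by
  rw [Real.mul_rpow (by linarith) ht]
  have := Real.rpow_le_rpow_of_exponent_le hc h1
  rw [Real.rpow_one] at this
  exact mul_le_mul_of_nonneg_right this (by positivity)

variable {V : Type*} [NormedAddCommGroup V] [InnerProductSpace ℝ V]

section glue

variable {M : Type*} [MetricSpace M]

/-- the interpolated map at distance r -/
def PP (Ψ : ℤ → M → V) (r : ℝ) (f : M) : V :=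
  (2 - r / 2 ^ Int.log 2 r) • Ψ (Int.log 2 r) f + (r / 2 ^ Int.log 2 r - 1) • Ψ (Int.log 2 r + 1) f

variable {α : ℝ} (h12 : 1 / 2 < α) (h1 : α < 1) {E : Finset M} {φ : M → V} {Ψ : ℤ → M → V}
  (P1 : ∀ j f, ∀ e ∈ E, dist f e ≤ 5 * 2 ^ j → ‖Ψ j f - φ e‖ ≤ 23 * ((2 : ℝ) ^ j) ^ α)

include h12 h1 P1 in
theorem PP_near {r : ℝ} (hr : 0 < r) {f e : M} (he : e ∈ E)
    (hfe : dist f e ≤ 5 * 2 ^ Int.log 2 r) : ‖PP Ψ r f - φ e‖ ≤ 46 * r ^ α := by
  obtain ⟨hu1, hu2⟩ := log_facts hr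
  set k := Int.log 2 r with hk
  have hu : (0 : ℝ) < 2 ^ k := by positivity
  have a1 := P1 k f e he hfe
  have hk1 : (2 : ℝ) ^ (k + 1) = 2 * 2 ^ k := by rw [zpow_add₀ (by norm_num)]; ring
  have a2 := P1 (k + 1) f e he (by rw [hk1]; linarith)
  rw [hk1] at a2
  have b1 : ((2 : ℝ) ^ k) ^ α ≤ r ^ α := Real.rpow_le_rpow hu.le hu1 (by linarith)
  have b2 : (2 * (2 : ℝ) ^ k) ^ α ≤ 2 * ((2 : ℝ) ^ k) ^ α :=
    mul_rpow_le (by norm_num) hu.le h1.le
  have t1 : 1 ≤ r / 2 ^ k := (one_le_div hu).2 hu1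
  have t2 : r / 2 ^ k < 2 := (div_lt_iff₀ hu).2 hu2
  have e1 : PP Ψ r f - φ e = (2 - r / 2 ^ k) • (Ψ k f - φ e) +
      (r / 2 ^ k - 1) • (Ψ (k + 1) f - φ e) := by
    unfold PP
    rw [← hk]
    module
  rw [e1]
  refine (norm_add_le _ _).trans ?_
  rw [norm_smul, norm_smul, Real.norm_eq_abs, Real.norm_eq_abs, abs_of_nonneg (by linarith),
    abs_of_nonneg (by linarith)]
  have c1 : (2 - r / 2 ^ k) * ‖Ψ k f - φ e‖ ≤ (2 - r / 2 ^ k) * (46 * r ^ α) := by
    refine mul_le_mul_of_nonneg_left ?_ (by linarith)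
    have : 0 ≤ r ^ α := by positivity
    linarith
  have c2 : (r / 2 ^ k - 1) * ‖Ψ (k + 1) f - φ e‖ ≤ (r / 2 ^ k - 1) * (46 * r ^ α) := by
    refine mul_le_mul_of_nonneg_left ?_ (by linarith)
    linarith
  linarith

theorem PP_same {A : ℝ}
    (P2 : ∀ j f g, ∀ e ∈ E, dist f e ≤ 5 * 2 ^ j → dist g e ≤ 5 * 2 ^ j → dist f g ≤ 2 ^ j →
      ‖Ψ j f - Ψ j g‖ ≤ A * dist f g ^ α)
    {r : ℝ} (hr : 0 < r) {f g e : M} (he : e ∈ E)
    (hfe : dist f e ≤ 5 * 2 ^ Int.log 2 r) (hge : dist g e ≤ 5 * 2 ^ Int.log 2 r)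
    (hfg : dist f g ≤ 2 ^ Int.log 2 r) :
    ‖PP Ψ r f - PP Ψ r g‖ ≤ A * dist f g ^ α := by
  obtain ⟨hu1, hu2⟩ := log_facts hr
  set k := Int.log 2 r with hk
  have hu : (0 : ℝ) < 2 ^ k := by positivity
  have a1 := P2 k f g e he hfe hge hfg
  have hk1 : (2 : ℝ) ^ (k + 1) = 2 * 2 ^ k := by rw [zpow_add₀ (by norm_num)]; ring
  have a2 := P2 (k + 1) f g e he (by rw [hk1]; linarith) (by rw [hk1]; linarith)
    (by rw [hk1]; linarith)
  have t1 : 1 ≤ r / 2 ^ k := (one_le_div hu).2 hu1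
  have t2 : r / 2 ^ k < 2 := (div_lt_iff₀ hu).2 hu2
  have e1 : PP Ψ r f - PP Ψ r g = (2 - r / 2 ^ k) • (Ψ k f - Ψ k g) +
      (r / 2 ^ k - 1) • (Ψ (k + 1) f - Ψ (k + 1) g) := by
    unfold PP
    rw [← hk]
    module
  rw [e1]
  refine (norm_add_le _ _).trans ?_
  rw [norm_smul, norm_smul, Real.norm_eq_abs, Real.norm_eq_abs, abs_of_nonneg (by linarith),
    abs_of_nonneg (by linarith)]
  have c1 : (2 - r / 2 ^ k) * ‖Ψ k f - Ψ k g‖ ≤ (2 - r / 2 ^ k) * (A * dist f g ^ α) :=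
    mul_le_mul_of_nonneg_left a1 (by linarith)
  have c2 : (r / 2 ^ k - 1) * ‖Ψ (k + 1) f - Ψ (k + 1) g‖ ≤
      (r / 2 ^ k - 1) * (A * dist f g ^ α) :=
    mul_le_mul_of_nonneg_left a2 (by linarith)
  linarith

include h12 h1 P1 in
theorem level_step {j : ℤ} {g e : M} (he : e ∈ E) (hge : dist g e ≤ 5 * 2 ^ j) :
    ‖Ψ (j + 1) g - Ψ j g‖ ≤ 69 * ((2 : ℝ) ^ j) ^ α := by
  have hu : (0 : ℝ) < 2 ^ j := by positivity
  have hk1 : (2 : ℝ) ^ (j + 1) = 2 * 2 ^ j := by rw [zpow_add₀ (by norm_num)]; ring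
  have a1 := P1 j g e he hge
  have a2 := P1 (j + 1) g e he (by rw [hk1]; linarith)
  rw [hk1] at a2
  have b2 : (2 * (2 : ℝ) ^ j) ^ α ≤ 2 * ((2 : ℝ) ^ j) ^ α :=
    mul_rpow_le (by norm_num) hu.le h1.le
  have e1 : Ψ (j + 1) g - Ψ j g = (Ψ (j + 1) g - φ e) - (Ψ j g - φ e) := by abel
  rw [e1]
  refine (norm_sub_le _ _).trans ?_
  linarith

include h12 h1 P1 in
theorem PP_radial {r r' : ℝ} (hr' : 0 < r') (hrr : r' ≤ r) (hr4 : r - r' ≤ r / 4) {g e : M}
    (he : e ∈ E) (hge : dist g e ≤ 5 * 2 ^ (Int.log 2 r - 1)) :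
    ‖PP Ψ r g - PP Ψ r' g‖ ≤ 138 * (r - r') ^ α := by
  have hr : 0 < r := by linarith
  obtain ⟨hu1, hu2⟩ := log_facts hr
  obtain ⟨hv1, hv2⟩ := log_facts hr'
  have hlog : Int.log 2 r' ≤ Int.log 2 r := Int.log_mono_right hr' hrr
  have hlog2 : Int.log 2 r - 1 ≤ Int.log 2 r' := by
    rw [← Int.zpow_le_iff_le_log (by norm_num) hr']
    push_cast
    rw [zpow_sub₀ (by norm_num)]
    rw [zpow_one]
    linarith
  set k := Int.log 2 r with hk
  have hu : (0 : ℝ) < 2 ^ k := by positivity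
  have hk1 : (2 : ℝ) ^ k = 2 * 2 ^ (k - 1) := by
    rw [zpow_sub₀ (by norm_num), zpow_one]; ring
  have hw : (0 : ℝ) < 2 ^ (k - 1) := by positivity
  have s1 := level_step h12 h1 P1 (j := k) he (g := g) (by rw [hk1]; linarith)
  have s2 := level_step h12 h1 P1 (j := k - 1) he (g := g) hge
  rw [sub_add_cancel] at s2
  have ht : 0 ≤ r - r' := by linarith
  have f1 := frac_mul (α := α) ht hu (by linarith) h1.le
  have f2 := frac_mul (α := α) ht hw (by linarith) h1.le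
  rcases hlog.eq_or_lt with h | h
  · -- same level
    have e1 : PP Ψ r g - PP Ψ r' g = ((r - r') / 2 ^ k) • (Ψ (k + 1) g - Ψ k g) := by
      unfold PP
      rw [h, ← hk]
      rw [sub_div]
      module
    rw [e1, norm_smul, Real.norm_eq_abs, abs_of_nonneg (by positivity)]
    have : (r - r') / 2 ^ k * ‖Ψ (k + 1) g - Ψ k g‖ ≤
        (r - r') / 2 ^ k * (69 * ((2 : ℝ) ^ k) ^ α) :=
      mul_le_mul_of_nonneg_left s1 (by positivity)
    have h0 : 0 ≤ (r - r') ^ α := by positivity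
    linarith
  · have hlk : Int.log 2 r' = k - 1 := by omega
    rw [hlk] at hv1 hv2
    have e1 : PP Ψ r g - PP Ψ r' g = (r / 2 ^ k - 1) • (Ψ (k + 1) g - Ψ k g) +
        (2 - r' / 2 ^ (k - 1)) • (Ψ k g - Ψ (k - 1) g) := by
      unfold PP
      rw [hlk, ← hk, sub_add_cancel]
      module
    have c1 : r / 2 ^ k - 1 ≤ (r - r') / 2 ^ k := by
      rw [sub_div]
      have : r' / 2 ^ k ≤ 1 := (div_le_one hu).2 (by linarith)
      linarith
    have c2 : 2 - r' / 2 ^ (k - 1) ≤ (r - r') / 2 ^ (k - 1) := by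
      rw [sub_div]
      have : 2 ≤ r / 2 ^ (k - 1) := (le_div_iff₀ hw).2 (by linarith)
      linarith
    have t1 : 1 ≤ r / 2 ^ k := (one_le_div hu).2 hu1
    have t2 : r' / 2 ^ (k - 1) < 2 := (div_lt_iff₀ hw).2 hv2
    rw [e1]
    refine (norm_add_le _ _).trans ?_
    rw [norm_smul, norm_smul, Real.norm_eq_abs, Real.norm_eq_abs, abs_of_nonneg (by linarith),
      abs_of_nonneg (by linarith)]
    have d1 : (r / 2 ^ k - 1) * ‖Ψ (k + 1) g - Ψ k g‖ ≤
        (r - r') / 2 ^ k * (69 * ((2 : ℝ) ^ k) ^ α) :=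
      mul_le_mul c1 s1 (norm_nonneg _) (by positivity)
    have d2 : (2 - r' / 2 ^ (k - 1)) * ‖Ψ k g - Ψ (k - 1) g‖ ≤
        (r - r') / 2 ^ (k - 1) * (69 * ((2 : ℝ) ^ (k - 1)) ^ α) :=
      mul_le_mul c2 s2 (norm_nonneg _) (by positivity)
    linarith

end glue

theorem finite_ext [FiniteDimensional ℝ V] [MeasurableSpace V] [BorelSpace V]
    {M : Type*} [MetricSpace M] [Finite M] {α : ℝ} (h12 : 1 / 2 < α) (h1 : α < 1)
    (hN : 1 ≤ Module.finrank ℝ V) {E : Finset M} (hE : E.Nonempty) {φ : M → V}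
    (hφ : ∀ e ∈ E, ∀ e' ∈ E, ‖φ e - φ e'‖ ≤ dist e e' ^ α) :
    ∃ ψ : M → V, (∀ e ∈ E, ψ e = φ e) ∧
      ∀ f g, ‖ψ f - ψ g‖ ≤ (AA V α + 377) * dist f g ^ α := by
  classical
  have hall : ∀ j : ℤ, ∃ Ψ : M → V,
      (∀ f, ∀ e ∈ E, dist f e ≤ 5 * 2 ^ j → ‖Ψ f - φ e‖ ≤ 23 * ((2 : ℝ) ^ j) ^ α) ∧
      (∀ f g, ∀ e ∈ E, dist f e ≤ 5 * 2 ^ j → dist g e ≤ 5 * 2 ^ j → dist f g ≤ 2 ^ j →
        ‖Ψ f - Ψ g‖ ≤ AA V α * dist f g ^ α) := fun j =>
    scaled_ext h12 h1 hN hE hφ (by positivity)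
  choose Ψ P1 P2 using hall
  have hnear : ∀ f : M, ∃ e ∈ E, ∀ e' ∈ E, dist f e ≤ dist f e' := fun f =>
    Finset.exists_min_image E (fun e => dist f e) hE
  choose p hp hpmin using hnear
  have hA : 0 ≤ AA V α := by
    unfold AA
    have := bb_pos V
    positivity
  have hα0 : α ≠ 0 := by linarith
  set ψ : M → V := fun f => if f ∈ E then φ f else PP Ψ (dist f (p f)) f with hψ
  have hrpos : ∀ f, f ∉ E → 0 < dist f (p f) := by
    intro f hf
    refine dist_pos.2 fun h => hf ?_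
    rw [h]; exact hp f
  have hψE : ∀ e ∈ E, ψ e = φ e := fun e he => if_pos he
  have hψn : ∀ f, f ∉ E → ψ f = PP Ψ (dist f (p f)) f := fun f hf => if_neg hf
  have hloc : ∀ f, ‖ψ f - φ (p f)‖ ≤ 46 * dist f (p f) ^ α := by
    intro f
    by_cases hf : f ∈ E
    · have h2 := hpmin f f hf
      rw [dist_self] at h2
      have h3 : f = p f := dist_le_zero.1 h2
      rw [hψE f hf, ← h3]
      simp [Real.zero_rpow hα0]
    · rw [hψn f hf]
      have hr := hrpos f hf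
      refine PP_near h12 h1 P1 hr (hp f) ?_
      have := (log_facts hr).2
      have hu : (0 : ℝ) < 2 ^ Int.log 2 (dist f (p f)) := by positivity
      linarith
  refine ⟨ψ, hψE, ?_⟩
  have key : ∀ f g, dist g (p g) ≤ dist f (p f) →
      ‖ψ f - ψ g‖ ≤ (AA V α + 377) * dist f g ^ α := by
    intro f g hgf
    have hδ0 : 0 ≤ dist f g := dist_nonneg
    have hδα : 0 ≤ dist f g ^ α := by positivity
    have hrf := hpmin f (p g) (hp g)
    have htri : dist f (p g) ≤ dist f g + dist g (p g) := dist_triangle _ _ _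
    have hAδ : 0 ≤ AA V α * dist f g ^ α := by positivity
    rcases le_or_gt (dist f (p f) / 4) (dist f g) with hbig | hsmall
    · -- far apart
      have l1 := hloc f
      have l2 := hloc g
      have l3 := hφ (p f) (hp f) (p g) (hp g)
      have m1 : dist f (p f) ^ α ≤ 4 * dist f g ^ α :=
        (Real.rpow_le_rpow dist_nonneg (show dist f (p f) ≤ 4 * dist f g by linarith)
          (by linarith)).trans (mul_rpow_le (by norm_num) hδ0 h1.le)
      have m2 : dist g (p g) ^ α ≤ 4 * dist f g ^ α :=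
        (Real.rpow_le_rpow dist_nonneg (show dist g (p g) ≤ 4 * dist f g by linarith)
          (by linarith)).trans (mul_rpow_le (by norm_num) hδ0 h1.le)
      have m3 : dist (p f) (p g) ^ α ≤ 9 * dist f g ^ α := by
        refine (Real.rpow_le_rpow dist_nonneg (show dist (p f) (p g) ≤ 9 * dist f g from ?_)
          (by linarith)).trans (mul_rpow_le (by norm_num) hδ0 h1.le)
        have := dist_triangle (p f) f (p g)
        rw [dist_comm (p f) f] at this
        linarith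
      have e1 : ψ f - ψ g = (ψ f - φ (p f)) + (φ (p f) - φ (p g)) - (ψ g - φ (p g)) := by abel
      rw [e1]
      have n1 := norm_sub_le ((ψ f - φ (p f)) + (φ (p f) - φ (p g))) (ψ g - φ (p g))
      have n2 := norm_add_le (ψ f - φ (p f)) (φ (p f) - φ (p g))
      linarith
    · -- close
      have hrf0 : 0 < dist f (p f) := by linarith
      have hrg0 : 0 < dist g (p g) := by linarith
      have hfE : f ∉ E := fun hf => by
        have := hpmin f f hf
        rw [dist_self] at this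
        linarith
      have hgE : g ∉ E := fun hg => by
        have := hpmin g g hg
        rw [dist_self] at this
        linarith
      obtain ⟨hu1, hu2⟩ := log_facts hrf0
      have hk1 : (2 : ℝ) ^ (Int.log 2 (dist f (p f))) =
          2 * 2 ^ (Int.log 2 (dist f (p f)) - 1) := by
        rw [zpow_sub₀ (by norm_num), zpow_one]; ring
      rw [hψn f hfE, hψn g hgE]
      have b1 := PP_same P2 hrf0 (f := f) (g := g) (e := p g) (hp g) (by linarith)
        (by linarith) (by linarith)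
      have b2 := PP_radial h12 h1 P1 (g := g) (e := p g) hrg0 hgf (by linarith) (hp g)
        (by linarith)
      have b3 : (dist f (p f) - dist g (p g)) ^ α ≤ dist f g ^ α :=
        Real.rpow_le_rpow (by linarith) (by linarith) (by linarith)
      have e1 : PP Ψ (dist f (p f)) f - PP Ψ (dist g (p g)) g =
          (PP Ψ (dist f (p f)) f - PP Ψ (dist f (p f)) g) +
          (PP Ψ (dist f (p f)) g - PP Ψ (dist g (p g)) g) := by abel
      rw [e1]
      refine (norm_add_le _ _).trans ?_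
      linarith
  intro f g
  rcases le_total (dist g (p g)) (dist f (p f)) with h | h
  · exact key f g h
  · rw [norm_sub_rev, dist_comm]
    exact key g f h

end Pool.Agent.Helper802.HolderExt
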