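import Pool.Agent.Helper802.HolderExt.Shift

open MeasureTheory Real

noncomputable section

namespace Pool.Agent.Helper802.HolderExt

variable {V : Type*} [NormedAddCommGroup V] [InnerProductSpace ℝ V] [FiniteDimensional ℝ V]
  [MeasurableSpace V] [BorelSpace V]

variable {M : Type*} (E : Finset M) (hE : E.Nonempty) (D : M → M → ℝ) (φ : M → V)

/-- the unsmoothed energy -/
def F0 (f : M) (x : V) : ℝ := E.sup' hE (fun e => ‖x - φ e‖ ^ 2 / 2 - 2 * D f e ^ 2)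

/-- the smoothed energy -/
def FF (f : M) (x : V) : ℝ := ∫ z, F0 E hE D φ f (x + z) * eta z

omit [FiniteDimensional ℝ V] [MeasurableSpace V] [BorelSpace V] in
theorem F0_continuous (f : M) : Continuous (F0 E hE D φ f) := by
  unfold F0
  refine Continuous.finset_sup'_apply hE fun e _ => ?_
  fun_prop

omit [FiniteDimensional ℝ V] [MeasurableSpace V] [BorelSpace V] in
theorem F0_mid (f : M) (x y : V) :
    F0 E hE D φ f ((1 / 2 : ℝ) • (x + y)) ≤
      (F0 E hE D φ f x + F0 E hE D φ f y) / 2 - ‖x - y‖ ^ 2 / 8 := by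
  refine Finset.sup'_le hE _ fun e he => ?_
  have h1 : ‖x - φ e‖ ^ 2 / 2 - 2 * D f e ^ 2 ≤ F0 E hE D φ f x :=
    Finset.le_sup' (f := fun e => ‖x - φ e‖ ^ 2 / 2 - 2 * D f e ^ 2) he
  have h2 : ‖y - φ e‖ ^ 2 / 2 - 2 * D f e ^ 2 ≤ F0 E hE D φ f y :=
    Finset.le_sup' (f := fun e => ‖y - φ e‖ ^ 2 / 2 - 2 * D f e ^ 2) he
  have h := parallelogram_law_with_norm ℝ (x - φ e) (y - φ e)
  have e1 : x - φ e + (y - φ e) = (2 : ℝ) • ((1 / 2 : ℝ) • (x + y) - φ e) := by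
    rw [smul_sub, smul_smul]; norm_num; rw [two_smul]; abel
  have e2 : x - φ e - (y - φ e) = x - y := by abel
  rw [e1, e2, norm_smul] at h
  have e3 : ‖(2 : ℝ)‖ = 2 := by norm_num
  rw [e3] at h
  linarith

variable {E D φ}

section bounds

variable (h0 : ∀ x y, 0 ≤ D x y) (hs : ∀ x y, D x y = D y x)
  (ht : ∀ x y z, D x z ≤ D x y + D y z)
  (hφ : ∀ e ∈ E, ∀ e' ∈ E, ‖φ e - φ e'‖ ≤ 1 + D e e')

include hs ht hφ in
omit [FiniteDimensional ℝ V] [MeasurableSpace V] [BorelSpace V] in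
theorem term_dist {f : M} {e0 : M} (he0 : e0 ∈ E) (hf : D f e0 ≤ 5) (x : V) {e : M}
    (he : e ∈ E) : ‖x - φ e‖ ≤ ‖x - φ e0‖ + 6 + D f e := by
  have h1 : ‖x - φ e‖ ≤ ‖x - φ e0‖ + ‖φ e0 - φ e‖ := by
    have : x - φ e = (x - φ e0) + (φ e0 - φ e) := by abel
    rw [this]; exact norm_add_le _ _
  have h2 := hφ e0 he0 e he
  have h3 := ht e0 f e
  have h4 := hs e0 f
  linarith

include h0 hs ht hφ in
omit [FiniteDimensional ℝ V] [MeasurableSpace V] [BorelSpace V] in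
theorem term_le {f : M} {e0 : M} (he0 : e0 ∈ E) (hf : D f e0 ≤ 5) (x : V) {e : M}
    (he : e ∈ E) : ‖x - φ e‖ ^ 2 / 2 - 2 * D f e ^ 2 ≤ (‖x - φ e0‖ + 6) ^ 2 - D f e ^ 2 := by
  have h1 := term_dist hs ht hφ he0 hf x he
  have h2 : ‖x - φ e‖ ^ 2 ≤ (‖x - φ e0‖ + 6 + D f e) ^ 2 :=
    pow_le_pow_left₀ (norm_nonneg _) h1 2
  nlinarith [sq_nonneg (‖x - φ e0‖ + 6 - D f e)]

include h0 hs ht hφ in
omit [FiniteDimensional ℝ V] [MeasurableSpace V] [BorelSpace V] in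
theorem F0_le {f : M} {e0 : M} (he0 : e0 ∈ E) (hf : D f e0 ≤ 5) (x : V) :
    F0 E hE D φ f x ≤ (‖x - φ e0‖ + 6) ^ 2 := by
  refine Finset.sup'_le hE _ fun e he => ?_
  have := term_le h0 hs ht hφ he0 hf x he
  nlinarith [sq_nonneg (D f e)]

include h0 in
omit [FiniteDimensional ℝ V] [MeasurableSpace V] [BorelSpace V] [InnerProductSpace ℝ V] in
theorem F0_ge {f : M} {e0 : M} (he0 : e0 ∈ E) (hf : D f e0 ≤ 5) (x : V) :
    ‖x - φ e0‖ ^ 2 / 2 - 50 ≤ F0 E hE D φ f x := by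
  have h1 : ‖x - φ e0‖ ^ 2 / 2 - 2 * D f e0 ^ 2 ≤ F0 E hE D φ f x :=
    Finset.le_sup' (f := fun e => ‖x - φ e‖ ^ 2 / 2 - 2 * D f e ^ 2) he0
  have h2 : D f e0 ^ 2 ≤ 5 ^ 2 := pow_le_pow_left₀ (h0 _ _) hf 2
  linarith

include h0 hs ht hφ in
omit [FiniteDimensional ℝ V] [MeasurableSpace V] [BorelSpace V] in
theorem F0_diff {f g : M} {e0 : M} (he0 : e0 ∈ E) (hf : D f e0 ≤ 5) (hfg : D f g ≤ 1) (x : V) :
    F0 E hE D φ f x - F0 E hE D φ g x ≤ 58 * D f g * (1 + ‖x - φ e0‖) := by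
  obtain ⟨e, he, hmax⟩ := Finset.exists_mem_eq_sup' hE
    (fun e => ‖x - φ e‖ ^ 2 / 2 - 2 * D f e ^ 2)
  have hF : F0 E hE D φ f x = ‖x - φ e‖ ^ 2 / 2 - 2 * D f e ^ 2 := hmax
  have h1 := term_le h0 hs ht hφ he0 hf x he
  have h2 := F0_ge hE (φ := φ) h0 he0 hf x
  have h3 : ‖x - φ e‖ ^ 2 / 2 - 2 * D g e ^ 2 ≤ F0 E hE D φ g x :=
    Finset.le_sup' (f := fun e => ‖x - φ e‖ ^ 2 / 2 - 2 * D g e ^ 2) he
  set y := ‖x - φ e0‖ with hy
  have hy0 : 0 ≤ y := norm_nonneg _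
  have hD0 := h0 f e
  have hDe : D f e ≤ y + 14 := by
    by_contra hcon
    push Not at hcon
    nlinarith [sq_nonneg y]
  have hge : D g e ≤ D f g + D f e := by
    have := ht g f e
    rw [hs g f] at this
    exact this
  have hg0 := h0 g e
  have hd0 := h0 f g
  have h4 : D g e ^ 2 ≤ (D f g + D f e) ^ 2 := pow_le_pow_left₀ hg0 hge 2
  nlinarith [mul_nonneg hd0 hy0, mul_nonneg hd0 (sub_nonneg.2 hfg),
    mul_nonneg hd0 (sub_nonneg.2 hDe)]

include h0 hs ht hφ in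
theorem F0_int (hN : 1 ≤ Module.finrank ℝ V) {f : M} {e0 : M} (he0 : e0 ∈ E)
    (hf : D f e0 ≤ 5) (x : V) :
    ∀ z : V, |F0 E hE D φ f (x + z)| ≤ (52 + 2 * (‖x - φ e0‖ + 6) ^ 2) * rexp (‖z‖ ^ 2) := by
  intro z
  have h1 := F0_le hE h0 hs ht hφ he0 hf (x + z)
  have h2 := F0_ge hE (φ := φ) h0 he0 hf (x + z)
  have h3 := sq_le_exp_sq ‖z‖
  have h4 := one_le_exp_sq ‖z‖
  have h5 : ‖x + z - φ e0‖ ≤ ‖x - φ e0‖ + ‖z‖ := by
    have : x + z - φ e0 = (x - φ e0) + z := by abel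
    rw [this]; exact norm_add_le _ _
  have h6 : (‖x + z - φ e0‖ + 6) ^ 2 ≤ ((‖x - φ e0‖ + 6) + ‖z‖) ^ 2 :=
    pow_le_pow_left₀ (by positivity) (by linarith) 2
  have h7 : ((‖x - φ e0‖ + 6) + ‖z‖) ^ 2 ≤ 2 * (‖x - φ e0‖ + 6) ^ 2 + 2 * ‖z‖ ^ 2 := by
    nlinarith [sq_nonneg ((‖x - φ e0‖ + 6) - ‖z‖)]
  have h8 : 0 ≤ 2 * (‖x - φ e0‖ + 6) ^ 2 := by positivity
  rw [abs_le]
  constructor
  · nlinarith [sq_nonneg ‖x + z - φ e0‖]
  · nlinarith

include h0 hs ht hφ in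
theorem FF_integrable (hN : 1 ≤ Module.finrank ℝ V) {f : M} {e0 : M} (he0 : e0 ∈ E)
    (hf : D f e0 ≤ 5) (x : V) : Integrable (fun z => F0 E hE D φ f (x + z) * eta z) :=
  integrable_mul_eta hN ((F0_continuous E hE D φ f).comp (by fun_prop))
    (F0_int hE h0 hs ht hφ hN he0 hf x)

include h0 hs ht hφ in
theorem FF_mid (hN : 1 ≤ Module.finrank ℝ V) {f : M} {e0 : M} (he0 : e0 ∈ E)
    (hf : D f e0 ≤ 5) (x y : V) :
    FF E hE D φ f ((1 / 2 : ℝ) • (x + y)) ≤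
      (FF E hE D φ f x + FF E hE D φ f y) / 2 - ‖x - y‖ ^ 2 / 8 := by
  have ix := FF_integrable hE h0 hs ht hφ hN he0 hf x
  have iy := FF_integrable hE h0 hs ht hφ hN he0 hf y
  have im := FF_integrable hE h0 hs ht hφ hN he0 hf ((1 / 2 : ℝ) • (x + y))
  have ie : Integrable (fun z : V => ‖x - y‖ ^ 2 / 8 * eta z) := integrable_eta.const_mul _
  have i3 : Integrable (fun z : V => (1 / 2 : ℝ) *
      (F0 E hE D φ f (x + z) * eta z + F0 E hE D φ f (y + z) * eta z)) :=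
    (ix.add iy).const_mul (1 / 2)
  have h1 : FF E hE D φ f ((1 / 2 : ℝ) • (x + y)) ≤
      ∫ z, ((1 / 2) * (F0 E hE D φ f (x + z) * eta z + F0 E hE D φ f (y + z) * eta z)
        - ‖x - y‖ ^ 2 / 8 * eta z) := by
    refine integral_mono im (i3.sub ie) fun z => ?_
    have h2 := F0_mid E hE D φ f (x + z) (y + z)
    have e1 : (1 / 2 : ℝ) • (x + z + (y + z)) = (1 / 2 : ℝ) • (x + y) + z := by
      have : x + z + (y + z) = (x + y) + (2 : ℝ) • z := by rw [two_smul]; abel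
      rw [this, smul_add, smul_smul]; norm_num
    have e2 : x + z - (y + z) = x - y := by abel
    rw [e1, e2] at h2
    have h3 := mul_le_mul_of_nonneg_right h2 (eta_nonneg z)
    linarith
  rw [integral_sub i3 ie, integral_const_mul, integral_const_mul,
    integral_add ix iy, integral_eta] at h1
  unfold FF at *
  linarith

include h0 hs ht hφ in
theorem FF_lower (hN : 1 ≤ Module.finrank ℝ V) {f : M} {e0 : M} (he0 : e0 ∈ E)
    (hf : D f e0 ≤ 5) (x : V) : ‖x - φ e0‖ ^ 2 / 4 - 51 ≤ FF E hE D φ f x := by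
  have hb := F0_int hE h0 hs ht hφ hN he0 hf x
  have h := integral_mul_eta_le hN (G := fun z : V => -F0 E hE D φ f (x + z))
    ((F0_continuous E hE D φ f).comp (by fun_prop)).neg (L := 1 / 2) (by norm_num)
    (fun z => by rw [abs_neg]; exact hb z) (A := 50 - ‖x - φ e0‖ ^ 2 / 4) (fun z => by
      have h2 := F0_ge hE (φ := φ) h0 he0 hf (x + z)
      have h3 := sq_le_exp_sq ‖z‖
      have h5 : ‖x - φ e0‖ ≤ ‖x + z - φ e0‖ + ‖z‖ := by
        have : x - φ e0 = (x + z - φ e0) - z := by abel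
        rw [this]; exact norm_sub_le _ _
      have h6 : ‖x - φ e0‖ ^ 2 ≤ (‖x + z - φ e0‖ + ‖z‖) ^ 2 :=
        pow_le_pow_left₀ (norm_nonneg _) h5 2
      nlinarith [sq_nonneg (‖x + z - φ e0‖ - ‖z‖)])
  have h4 : ∫ z, (fun z : V => -F0 E hE D φ f (x + z)) z * eta z = -FF E hE D φ f x := by
    unfold FF
    rw [← integral_neg]
    congr 1
    ext z
    ring
  rw [h4] at h
  linarith

include h0 hs ht hφ in
theorem FF_upper (hN : 1 ≤ Module.finrank ℝ V) {f : M} {e0 : M} (he0 : e0 ∈ E)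
    (hf : D f e0 ≤ 5) : FF E hE D φ f (φ e0) ≤ 76 := by
  have hb := F0_int hE h0 hs ht hφ hN he0 hf (φ e0)
  have h := integral_mul_eta_le hN (G := fun z : V => F0 E hE D φ f (φ e0 + z))
    ((F0_continuous E hE D φ f).comp (by fun_prop)) (L := 2) (by norm_num)
    hb (A := 72) (fun z => by
      have h2 := F0_le hE h0 hs ht hφ he0 hf (φ e0 + z)
      have h3 := sq_le_exp_sq ‖z‖
      have h5 : φ e0 + z - φ e0 = z := by abel
      rw [h5] at h2
      nlinarith [sq_nonneg (‖z‖ - 6)])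
  unfold FF
  linarith

include h0 hs ht hφ in
theorem G_abs (hN : 1 ≤ Module.finrank ℝ V) {f g : M} {e0 : M} (he0 : e0 ∈ E)
    (hf : D f e0 ≤ 5) (hg : D g e0 ≤ 5) (hfg : D f g ≤ 1) (x : V) (hx : ‖x - φ e0‖ ≤ 23) :
    |FF E hE D φ f x - FF E hE D φ g x| ≤ 1508 * D f g := by
  have hd0 := h0 f g
  have hgf : D g f = D f g := hs g f
  have ix := FF_integrable hE h0 hs ht hφ hN he0 hf x
  have iy := FF_integrable hE h0 hs ht hφ hN he0 hg x
  have hpt : ∀ z : V, |F0 E hE D φ f (x + z) - F0 E hE D φ g (x + z)| ≤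
      58 * D f g * 24 + 58 * D f g * rexp (‖z‖ ^ 2) := by
    intro z
    have h1 := F0_diff hE h0 hs ht hφ he0 hf hfg (x + z)
    have h2 := F0_diff hE h0 hs ht hφ he0 hg (hgf ▸ hfg) (x + z)
    rw [hgf] at h2
    have h5 : ‖x + z - φ e0‖ ≤ 23 + ‖z‖ := by
      have : x + z - φ e0 = (x - φ e0) + z := by abel
      rw [this]; exact (norm_add_le _ _).trans (by linarith)
    have h6 := le_exp_sq ‖z‖
    have h7 : 58 * D f g * (1 + ‖x + z - φ e0‖) ≤
        58 * D f g * 24 + 58 * D f g * rexp (‖z‖ ^ 2) := by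
      have : 58 * D f g * (1 + ‖x + z - φ e0‖) ≤ 58 * D f g * (24 + rexp (‖z‖ ^ 2)) :=
        mul_le_mul_of_nonneg_left (by linarith) (by positivity)
      linarith
    rw [abs_le]
    constructor <;> linarith
  have h1 : FF E hE D φ f x - FF E hE D φ g x =
      ∫ z, (F0 E hE D φ f (x + z) * eta z - F0 E hE D φ g (x + z) * eta z) := by
    rw [integral_sub ix iy]; rfl
  rw [h1, ← Real.norm_eq_abs]
  have h2 := norm_integral_le_of_norm_le
    (((integrable_eta (V := V)).const_mul (58 * D f g * 24)).add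
      ((integrable_exp_eta hN).const_mul (58 * D f g)))
    (Filter.Eventually.of_forall (fun z => by
      show ‖F0 E hE D φ f (x + z) * eta z - F0 E hE D φ g (x + z) * eta z‖ ≤ _
      rw [← sub_mul, Real.norm_eq_abs, abs_mul, abs_of_nonneg (eta_nonneg z)]
      have := mul_le_mul_of_nonneg_right (hpt z) (eta_nonneg z)
      refine this.trans (le_of_eq ?_)
      simp only [Pi.add_apply]
      ring))
  refine h2.trans ?_
  simp only [Pi.add_apply]
  rw [integral_add ((integrable_eta (V := V)).const_mul (58 * D f g * 24))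
    ((integrable_exp_eta hN).const_mul (58 * D f g)), integral_const_mul, integral_const_mul,
    integral_eta]
  have h3 := integral_exp_eta_le hN (V := V)
  nlinarith

include h0 hs ht hφ in
theorem G_lip (hN : 1 ≤ Module.finrank ℝ V) {f g : M} {e0 : M} (he0 : e0 ∈ E)
    (hf : D f e0 ≤ 5) (hg : D g e0 ≤ 5) (hfg : D f g ≤ 1) (x y : V) (hx : ‖x - φ e0‖ ≤ 23)
    (hy : ‖y - φ e0‖ ≤ 23) :
    |(FF E hE D φ f x - FF E hE D φ g x) - (FF E hE D φ f y - FF E hE D φ g y)| ≤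
      134154 * D f g * (√(bb V) * ‖x - y‖) := by
  have hd0 := h0 f g
  have hgf : D g f = D f g := hs g f
  have hH : ∀ w : V, |F0 E hE D φ f w - F0 E hE D φ g w| ≤ 58 * D f g * (1 + ‖w - φ e0‖) := by
    intro w
    have h1 := F0_diff hE h0 hs ht hφ he0 hf hfg w
    have h2 := F0_diff hE h0 hs ht hφ he0 hg (hgf ▸ hfg) w
    rw [hgf] at h2
    rw [abs_le]
    constructor <;> linarith
  have h := shift_bound hN (H := fun w => F0 E hE D φ f w - F0 E hE D φ g w)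
    ((F0_continuous E hE D φ f).sub (F0_continuous E hE D φ g)) (K := 58 * D f g) (R := 23)
    (by positivity) (by norm_num) hH hx hy
  have key : ∀ u : V, (∫ z, (fun w => F0 E hE D φ f w - F0 E hE D φ g w) (u + z) * eta z) =
      FF E hE D φ f u - FF E hE D φ g u := by
    intro u
    have ix := FF_integrable hE h0 hs ht hφ hN he0 hf u
    have iy := FF_integrable hE h0 hs ht hφ hN he0 hg u
    unfold FF
    rw [← integral_sub ix iy]
    congr 1
    ext z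
    ring
  rw [key, key] at h
  refine h.trans (le_of_eq ?_)
  ring

include h0 hs ht hφ in
theorem local_ext [Finite M] (hN : 1 ≤ Module.finrank ℝ V)
    (hD : ∀ x y, x ≠ y → 0 < D x y) (hDD : ∀ x, D x x = 0) (hE : E.Nonempty) :
    ∃ Ψ : M → V, (∀ f, ∀ e ∈ E, D f e ≤ 5 → ‖Ψ f - φ e‖ ≤ 23) ∧
      (∀ f g, ∀ e ∈ E, D f e ≤ 5 → D g e ≤ 5 → D f g ≤ 1 →
        ‖Ψ f - Ψ g‖ ≤ 300000 * (√(bb V) * D f g) ∧ ‖Ψ f - Ψ g‖ ≤ 78 * √(D f g)) := by
  classical
  obtain ⟨ε, hε, hε1, hεD⟩ : ∃ ε : ℝ, 0 < ε ∧ ε ≤ 1 ∧ ∀ x y : M, x ≠ y → ε ≤ D x y ^ 2 := by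
    obtain ⟨e1, he1⟩ := hE
    haveI : Nonempty (M × M) := ⟨(e1, e1)⟩
    obtain ⟨p, hp⟩ := Finite.exists_min
      (fun p : M × M => if p.1 = p.2 then (1 : ℝ) else min 1 (D p.1 p.2 ^ 2))
    refine ⟨if p.1 = p.2 then (1 : ℝ) else min 1 (D p.1 p.2 ^ 2), ?_, ?_, ?_⟩
    · split_ifs with h
      · norm_num
      · exact lt_min one_pos (pow_pos (hD _ _ h) 2)
    · have := hp (e1, e1)
      simpa using this
    · intro x y hxy
      have := hp (x, y)
      simp only [hxy, if_false] at this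
      exact this.trans (min_le_right _ _)
  have hX : ∀ f : M, ∃ X : V, (∃ e ∈ E, D f e ≤ 5) →
      ∀ x, FF E hE D φ f X ≤ FF E hE D φ f x + ε := by
    intro f
    by_cases h : ∃ e ∈ E, D f e ≤ 5
    · obtain ⟨e, he, hfe⟩ := h
      have hbdd : BddBelow (Set.range (FF E hE D φ f)) := by
        refine ⟨-51, ?_⟩
        rintro _ ⟨x, rfl⟩
        have := FF_lower hE h0 hs ht hφ hN he hfe x
        nlinarith [sq_nonneg ‖x - φ e‖]
      obtain ⟨X, hXX⟩ := exists_lt_of_ciInf_lt (show iInf (FF E hE D φ f) <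
        iInf (FF E hE D φ f) + ε by linarith)
      refine ⟨X, fun _ x => ?_⟩
      have := ciInf_le hbdd x
      linarith
    · exact ⟨0, fun h' => absurd h' h⟩
  choose Ψ hΨ using hX
  have hfirst : ∀ f, ∀ e ∈ E, D f e ≤ 5 → ‖Ψ f - φ e‖ ≤ 23 := by
    intro f e he hfe
    have h1 := hΨ f ⟨e, he, hfe⟩ (φ e)
    have h2 := FF_upper hE h0 hs ht hφ hN he hfe
    have h3 := FF_lower hE h0 hs ht hφ hN he hfe (Ψ f)
    have h4 : ‖Ψ f - φ e‖ ^ 2 ≤ 23 ^ 2 := by linarith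
    exact (abs_le_of_sq_le_sq' h4 (by norm_num)).2
  refine ⟨Ψ, hfirst, ?_⟩
  intro f g e he hfe hge hfg
  by_cases hne : f = g
  · subst hne
    rw [hDD f]
    simp
  have hδ : 0 < D f g := hD f g hne
  have hεδ := hεD f g hne
  have hXf := hfirst f e he hfe
  have hXg := hfirst g e he hge
  have hmf := FF_mid hE h0 hs ht hφ hN he hfe (Ψ f) (Ψ g)
  have hmg := FF_mid hE h0 hs ht hφ hN he hge (Ψ f) (Ψ g)
  have hf1 := hΨ f ⟨e, he, hfe⟩ ((1 / 2 : ℝ) • (Ψ f + Ψ g))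
  have hg1 := hΨ g ⟨e, he, hge⟩ ((1 / 2 : ℝ) • (Ψ f + Ψ g))
  set a := ‖Ψ f - Ψ g‖ with ha
  have ha0 : 0 ≤ a := norm_nonneg _
  set δ := D f g with hδdef
  have hmain : a ^ 2 / 2 - 4 * ε ≤ -((FF E hE D φ f (Ψ f) - FF E hE D φ g (Ψ f)) -
      (FF E hE D φ f (Ψ g) - FF E hE D φ g (Ψ g))) := by linarith
  have hG1 := abs_le.1 (G_abs hE h0 hs ht hφ hN he hfe hge hfg (Ψ f) hXf)
  have hG2 := abs_le.1 (G_abs hE h0 hs ht hφ hN he hfe hge hfg (Ψ g) hXg)
  have hG3 := abs_le.1 (G_lip hE h0 hs ht hφ hN he hfe hge hfg (Ψ f) (Ψ g) hXf hXg)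
  have hδ2 : δ ^ 2 ≤ δ := by nlinarith
  constructor
  · set s := √(bb V) with hs'
    have hs1 : 1 ≤ s := by
      rw [hs']
      rw [Real.one_le_sqrt]
      unfold bb
      have : (0 : ℝ) ≤ Module.finrank ℝ V := by positivity
      linarith
    by_contra hcon
    push Not at hcon
    have h5 : a ^ 2 ≤ 8 * δ ^ 2 + 268308 * δ * (s * a) := by
      have := hG3.1
      linarith
    have h6 : 0 < δ * s := by positivity
    have h7 : δ ≤ δ * s := by nlinarith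
    have h8 : δ * s ≤ a := by nlinarith
    have h9 : 8 * δ ^ 2 ≤ 8 * (δ * s) * a := by nlinarith
    have h10 : a * (a - 268316 * (s * δ)) ≤ 0 := by nlinarith
    have h11 : 0 < a := by nlinarith
    nlinarith
  · have h5 : a ^ 2 ≤ 6084 * δ := by
      have := hG1.1
      have := hG2.2
      linarith
    have h6 : a ^ 2 ≤ (78 * √δ) ^ 2 := by
      rw [mul_pow, Real.sq_sqrt hδ.le]
      linarith
    exact (abs_le_of_sq_le_sq' h6 (by positivity)).2

end bounds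

end Pool.Agent.Helper802.HolderExt
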