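import Pool.Agent.Helper802.HolderExt.Local

open MeasureTheory Real

noncomputable section

namespace Pool.Agent.Helper802.HolderExt

theorem rpow_le_one_add {t α : ℝ} (ht : 0 ≤ t) (h0 : 0 ≤ α) (h1 : α ≤ 1) : t ^ α ≤ 1 + t := by
  rcases le_total t 1 with h | h
  · have := Real.rpow_le_one ht h h0
    linarith
  · have := Real.rpow_le_rpow_of_exponent_le h h1
    rw [Real.rpow_one] at this
    linarith

/-- interpolation between a Lipschitz bound and a square root bound -/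
theorem interp {X b s α : ℝ} (hX : 0 ≤ X) (hb : 0 < b) (hs : 0 ≤ s) (h12 : 1 / 2 < α)
    (h1 : α < 1) (hA : X ≤ 300000 * (√b * s)) (hB : X ≤ 78 * √s) :
    X ≤ 300000 * b ^ (α - 1 / 2) * s ^ α := by
  rcases hs.eq_or_lt with rfl | hs'
  · have : X ≤ 0 := by simpa using hA
    have h2 : (0 : ℝ) ^ α = 0 := Real.zero_rpow (by linarith)
    rw [h2]; linarith
  set θ : ℝ := 2 * α - 1 with hθ
  have hθ0 : 0 < θ := by linarith
  have hθ1 : θ < 1 := by linarith
  have hX1 : X = X ^ θ * X ^ (1 - θ) := by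
    rcases hX.eq_or_lt with h | h
    · rw [← h, Real.zero_rpow hθ0.ne']; simp
    · rw [← Real.rpow_add h]; simp
  have hA' : X ^ θ ≤ (300000 * (√b * s)) ^ θ := Real.rpow_le_rpow hX hA hθ0.le
  have hB' : X ^ (1 - θ) ≤ (300000 * √s) ^ (1 - θ) :=
    Real.rpow_le_rpow hX (hB.trans (by nlinarith [Real.sqrt_nonneg s])) (by linarith)
  rw [hX1]
  refine (mul_le_mul hA' hB' (by positivity) (by positivity)).trans (le_of_eq ?_)
  rw [Real.mul_rpow (x := 300000) (y := √b * s) (by norm_num) (by positivity),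
    Real.mul_rpow (x := 300000) (y := √s) (by norm_num) (by positivity),
    Real.mul_rpow (x := √b) (y := s) (by positivity) hs, Real.sqrt_eq_rpow, Real.sqrt_eq_rpow,
    ← Real.rpow_mul hb.le, ← Real.rpow_mul hs]
  have e1 : (300000 : ℝ) ^ θ * (300000 : ℝ) ^ (1 - θ) = 300000 := by
    rw [← Real.rpow_add (by norm_num)]; simp
  have e2 : s ^ θ * s ^ (1 / 2 * (1 - θ)) = s ^ α := by
    rw [← Real.rpow_add hs']
    congr 1
    rw [hθ]; ring
  have e3 : 1 / 2 * θ = α - 1 / 2 := by rw [hθ]; ring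
  rw [e3]
  calc (300000 : ℝ) ^ θ * (b ^ (α - 1 / 2) * s ^ θ) * (300000 ^ (1 - θ) * s ^ (1 / 2 * (1 - θ)))
      = ((300000 : ℝ) ^ θ * (300000 : ℝ) ^ (1 - θ)) * b ^ (α - 1 / 2) *
        (s ^ θ * s ^ (1 / 2 * (1 - θ))) := by ring
    _ = _ := by rw [e1, e2]

variable {V : Type*} [NormedAddCommGroup V] [InnerProductSpace ℝ V] [FiniteDimensional ℝ V]
  [MeasurableSpace V] [BorelSpace V]

variable (V) in
/-- the Hölder constant at one scale -/
def AA (α : ℝ) : ℝ := 300000 * bb V ^ (α - 1 / 2)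

theorem scaled_ext {M : Type*} [MetricSpace M] [Finite M] {α : ℝ} (h12 : 1 / 2 < α) (h1 : α < 1)
    (hN : 1 ≤ Module.finrank ℝ V) {E : Finset M} (hE : E.Nonempty) {φ : M → V}
    (hφ : ∀ e ∈ E, ∀ e' ∈ E, ‖φ e - φ e'‖ ≤ dist e e' ^ α) {r : ℝ} (hr : 0 < r) :
    ∃ Ψ : M → V, (∀ f, ∀ e ∈ E, dist f e ≤ 5 * r → ‖Ψ f - φ e‖ ≤ 23 * r ^ α) ∧
      (∀ f g, ∀ e ∈ E, dist f e ≤ 5 * r → dist g e ≤ 5 * r → dist f g ≤ r →
        ‖Ψ f - Ψ g‖ ≤ AA V α * dist f g ^ α) := by
  have hs : 0 < r ^ α := Real.rpow_pos_of_pos hr α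
  set s := r ^ α with hsdef
  obtain ⟨Ψ, hΨ1, hΨ2⟩ := local_ext (E := E) (D := fun x y : M => dist x y / r)
    (φ := fun e => s⁻¹ • φ e)
    (fun x y => by positivity)
    (fun x y => by simp only [dist_comm])
    (fun x y z => by
      rw [← add_div]
      exact div_le_div_of_nonneg_right (dist_triangle _ _ _) hr.le)
    (fun e he e' he' => by
      rw [← smul_sub, norm_smul, Real.norm_eq_abs, abs_of_pos (inv_pos.2 hs)]
      have h2 : s⁻¹ * ‖φ e - φ e'‖ ≤ s⁻¹ * dist e e' ^ α :=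
        mul_le_mul_of_nonneg_left (hφ e he e' he') (inv_pos.2 hs).le
      have h3 : s⁻¹ * dist e e' ^ α = (dist e e' / r) ^ α := by
        rw [Real.div_rpow dist_nonneg hr.le, hsdef]
        field_simp
      rw [h3] at h2
      exact h2.trans (rpow_le_one_add (by positivity) (by linarith) h1.le))
    hN
    (fun x y hxy => div_pos (dist_pos.2 hxy) hr)
    (fun x => by simp) hE
  refine ⟨fun f => s • Ψ f, ?_, ?_⟩
  · intro f e he hfe
    have h2 := hΨ1 f e he ((div_le_iff₀ hr).2 hfe)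
    have e1 : s • Ψ f - φ e = s • (Ψ f - s⁻¹ • φ e) := by
      rw [smul_sub, smul_smul, mul_inv_cancel₀ hs.ne', one_smul]
    rw [e1, norm_smul, Real.norm_eq_abs, abs_of_pos hs]
    nlinarith
  · intro f g e he hfe hge hfg
    obtain ⟨h2, h3⟩ := hΨ2 f g e he ((div_le_iff₀ hr).2 hfe) ((div_le_iff₀ hr).2 hge)
      ((div_le_one hr).2 hfg)
    have h4 := interp (norm_nonneg _) (bb_pos V) (by positivity) h12 h1 h2 h3
    simp only
    rw [← smul_sub, norm_smul, Real.norm_eq_abs, abs_of_pos hs]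
    have h5 : s * ‖Ψ f - Ψ g‖ ≤ s * (300000 * bb V ^ (α - 1 / 2) * (dist f g / r) ^ α) :=
      mul_le_mul_of_nonneg_left h4 hs.le
    refine h5.trans (le_of_eq ?_)
    rw [Real.div_rpow dist_nonneg hr.le, ← hsdef]
    unfold AA
    field_simp

end Pool.Agent.Helper802.HolderExt
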