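import Pool.Agent.Helper802.HolderExt.Gauss

open MeasureTheory Real

noncomputable section

namespace Pool.Agent.Helper802.HolderExt

variable {V : Type*} [NormedAddCommGroup V] [InnerProductSpace ℝ V] [FiniteDimensional ℝ V]
  [MeasurableSpace V] [BorelSpace V]

theorem integrable_shift {g : V → ℝ} (x : V) (h : Integrable (fun z => g (x + z))) :
    Integrable g :=
  ((measurePreserving_add_left volume x).integrable_comp_emb
    (MeasurableEquiv.addLeft x).measurableEmbedding).1 h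

theorem le_exp_sq (t : ℝ) : t ≤ rexp (t ^ 2) := by
  have := Real.add_one_le_exp (t ^ 2)
  nlinarith [sq_nonneg (t - 1/2)]

theorem sq_le_exp_sq (t : ℝ) : t ^ 2 ≤ rexp (t ^ 2) := by
  have := Real.add_one_le_exp (t ^ 2)
  linarith

theorem one_le_exp_sq (t : ℝ) : 1 ≤ rexp (t ^ 2) := Real.one_le_exp (sq_nonneg t)

/-- weighted integrability -/
theorem integrable_mul_eta (hN : 1 ≤ Module.finrank ℝ V) {G : V → ℝ} (hc : Continuous G) {K : ℝ}
    (hG : ∀ z, |G z| ≤ K * rexp (‖z‖ ^ 2)) : Integrable (fun z => G z * eta z) := by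
  refine ((integrable_exp_eta hN).const_mul K).mono'
    ((hc.mul eta_continuous).aestronglyMeasurable) (Filter.Eventually.of_forall fun z => ?_)
  rw [Real.norm_eq_abs, abs_mul, abs_of_nonneg (eta_nonneg z)]
  have := mul_le_mul_of_nonneg_right (hG z) (eta_nonneg z)
  linarith

theorem integral_mul_eta_le (hN : 1 ≤ Module.finrank ℝ V) {G : V → ℝ} (hc : Continuous G)
    {K L : ℝ} (hL : 0 ≤ L) (hG : ∀ z, |G z| ≤ K * rexp (‖z‖ ^ 2)) {A : ℝ} (hG2 : ∀ z, G z ≤ A + L * rexp (‖z‖ ^ 2)) :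
    ∫ z, G z * eta z ≤ A + 2 * L := by
  have h1 : ∫ z, G z * eta z ≤ ∫ z : V, (A * eta z + L * (rexp (‖z‖ ^ 2) * eta z)) := by
    refine integral_mono (integrable_mul_eta hN hc hG)
      ((integrable_eta.const_mul A).add ((integrable_exp_eta hN).const_mul L)) fun z => ?_
    have := mul_le_mul_of_nonneg_right (hG2 z) (eta_nonneg z)
    simp only
    linarith
  rw [integral_add (integrable_eta.const_mul A) ((integrable_exp_eta hN).const_mul L),
    integral_const_mul, integral_const_mul, integral_eta] at h1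
  have := integral_exp_eta_le hN (V := V)
  nlinarith

theorem pointwise {a b c W t : ℝ} (ha : 0 ≤ a) (hb : 0 ≤ b) (hc : 0 ≤ c) (habc : c ^ 2 = a * b)
    (ht : 0 < t) :
    W * |a - b| ≤ (2 * t)⁻¹ * (a + b - 2 * c) + t * (W ^ 2 * (a + b)) := by
  have hP : 0 ≤ a + b - 2 * c := by
    have h1 : (2 * c) ^ 2 ≤ (a + b) ^ 2 := by nlinarith [sq_nonneg (a - b)]
    have := abs_le_of_sq_le_sq' h1 (by positivity)
    linarith [this.2]
  have hQ : 0 ≤ 2 * (W ^ 2 * (a + b)) := by positivity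
  have h2 : (W * |a - b|) ^ 2 ≤ (a + b - 2 * c) * (2 * (W ^ 2 * (a + b))) := by
    have h3 : (W * |a - b|) ^ 2 = W ^ 2 * ((a + b - 2 * c) * (a + b + 2 * c)) := by
      rw [mul_pow, sq_abs]
      have : (a - b) ^ 2 = (a + b - 2 * c) * (a + b + 2 * c) := by nlinarith
      rw [this]
    rw [h3]
    have h4 : (a + b - 2 * c) * (a + b + 2 * c) ≤ (a + b - 2 * c) * (2 * (a + b)) :=
      mul_le_mul_of_nonneg_left (by linarith) hP
    nlinarith [mul_le_mul_of_nonneg_left h4 (sq_nonneg W)]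
  have h5 : (2 * t)⁻¹ * (a + b - 2 * c) + t * (W ^ 2 * (a + b))
      = ((2 * t)⁻¹ * (a + b - 2 * c)) + (t / 2) * (2 * (W ^ 2 * (a + b))) := by ring
  rw [h5]
  set P := a + b - 2 * c
  set Q := 2 * (W ^ 2 * (a + b))
  have h6 : P * Q ≤ ((2 * t)⁻¹ * P + t / 2 * Q) ^ 2 := by
    have h7 : ((2 * t)⁻¹ * P + t / 2 * Q) ^ 2 - P * Q = ((2 * t)⁻¹ * P - t / 2 * Q) ^ 2 := by
      field_simp
      ring
    nlinarith [sq_nonneg ((2 * t)⁻¹ * P - t / 2 * Q)]
  exact (abs_le_of_sq_le_sq' (h2.trans h6) (by positivity)).2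

theorem cross_sq (x y w : V) :
    (rexp (-(bb V) * ‖x - y‖ ^ 2 / 4) * eta (w - (1 / 2 : ℝ) • (x + y))) ^ 2
      = eta (w - x) * eta (w - y) := by
  unfold eta
  have hpar : ‖w - x‖ ^ 2 + ‖w - y‖ ^ 2 =
      2 * ‖w - (1 / 2 : ℝ) • (x + y)‖ ^ 2 + ‖x - y‖ ^ 2 / 2 := by
    have h := parallelogram_law_with_norm ℝ (w - x) (w - y)
    have e1 : w - x + (w - y) = (2 : ℝ) • (w - (1 / 2 : ℝ) • (x + y)) := by
      rw [smul_sub, smul_smul]; norm_num; rw [two_smul]; abel
    have e2 : w - x - (w - y) = -(x - y) := by abel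
    rw [e1, e2, norm_smul, norm_neg] at h
    have e3 : ‖(2 : ℝ)‖ = 2 := by norm_num
    rw [e3] at h
    linarith
  have e3 : (rexp (-(bb V) * ‖x - y‖ ^ 2 / 4) *
      ((ZZ V)⁻¹ * rexp (-(bb V) * ‖w - (1 / 2 : ℝ) • (x + y)‖ ^ 2))) ^ 2
      = (ZZ V)⁻¹ ^ 2 * rexp (2 * (-(bb V) * ‖x - y‖ ^ 2 / 4 +
        -(bb V) * ‖w - (1 / 2 : ℝ) • (x + y)‖ ^ 2)) := by
    rw [mul_pow, mul_pow, two_mul, Real.exp_add, Real.exp_add]
    ring
  rw [e3]
  have e4 : (ZZ V)⁻¹ * rexp (-(bb V) * ‖w - x‖ ^ 2) * ((ZZ V)⁻¹ * rexp (-(bb V) * ‖w - y‖ ^ 2))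
      = (ZZ V)⁻¹ ^ 2 * rexp (-(bb V) * (‖w - x‖ ^ 2 + ‖w - y‖ ^ 2)) := by
    rw [mul_add, Real.exp_add]; ring
  rw [e4, hpar]
  congr 2
  ring

theorem shift_bound (hN : 1 ≤ Module.finrank ℝ V) {H : V → ℝ} (hc : Continuous H) {K R : ℝ}
    (hK : 0 ≤ K) (hR : 0 ≤ R) {p x y : V} (hH : ∀ w, |H w| ≤ K * (1 + ‖w - p‖))
    (hx : ‖x - p‖ ≤ R) (hy : ‖y - p‖ ≤ R) :
    |(∫ z, H (x + z) * eta z) - ∫ z, H (y + z) * eta z|
      ≤ K * (√(bb V) * ‖x - y‖ * (9 + 4 * (1 + R) ^ 2)) := by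
  rcases eq_or_ne x y with rfl | hxy
  · simp
  have hd : 0 < ‖x - y‖ := norm_pos_iff.2 (sub_ne_zero.2 hxy)
  set b := bb V with hb
  have hb0 : 0 < b := bb_pos V
  set t : ℝ := √b * ‖x - y‖ with ht
  have ht0 : 0 < t := by positivity
  -- shifted integrals
  have key : ∀ u : V, ∫ z, H (u + z) * eta z = ∫ w, H w * eta (w - u) := by
    intro u
    have := integral_add_left_eq_self (μ := (volume : Measure V)) (fun w => H w * eta (w - u)) u
    rw [← this]
    congr 1
    ext z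
    simp
  have intg : ∀ u : V, ‖u - p‖ ≤ R → Integrable (fun w => H w * eta (w - u)) := by
    intro u hu
    refine integrable_shift u ?_
    simp only [add_sub_cancel_left]
    refine integrable_mul_eta hN (K := K * (2 + R)) (by fun_prop) fun z => ?_
    have h1 := hH (u + z)
    have h2 : ‖u + z - p‖ ≤ R + ‖z‖ := by
      have : u + z - p = (u - p) + z := by abel
      rw [this]
      exact (norm_add_le _ _).trans (by linarith)
    have h3 := le_exp_sq ‖z‖
    have h4 := one_le_exp_sq ‖z‖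
    calc |H (u + z)| ≤ K * (1 + ‖u + z - p‖) := h1
      _ ≤ K * ((2 + R) * rexp (‖z‖ ^ 2)) := by
          apply mul_le_mul_of_nonneg_left _ hK
          nlinarith
      _ = _ := by ring
  have intW : ∀ u : V, ‖u - p‖ ≤ R →
      Integrable (fun w => (1 + ‖w - p‖) ^ 2 * eta (w - u)) ∧
      ∫ w, (1 + ‖w - p‖) ^ 2 * eta (w - u) ≤ 2 * (1 + R) ^ 2 + 4 := by
    intro u hu
    have hbd : ∀ z : V, (1 + ‖u + z - p‖) ^ 2 ≤ 2 * (1 + R) ^ 2 + 2 * rexp (‖z‖ ^ 2) := by
      intro z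
      have h2 : ‖u + z - p‖ ≤ R + ‖z‖ := by
        have : u + z - p = (u - p) + z := by abel
        rw [this]
        exact (norm_add_le _ _).trans (by linarith)
      have h3 := sq_le_exp_sq ‖z‖
      have h5 : (1 + ‖u + z - p‖) ^ 2 ≤ ((1 + R) + ‖z‖) ^ 2 :=
        pow_le_pow_left₀ (by positivity) (by linarith) 2
      nlinarith [sq_nonneg ((1 + R) - ‖z‖)]
    have hbd2 : ∀ z : V, |(1 + ‖u + z - p‖) ^ 2| ≤ (2 * (1 + R) ^ 2 + 2) * rexp (‖z‖ ^ 2) := by
      intro z
      rw [abs_of_nonneg (sq_nonneg _)]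
      have h4 := one_le_exp_sq ‖z‖
      nlinarith [hbd z, sq_nonneg (1 + R)]
    have hi := integrable_mul_eta hN (G := fun z : V => (1 + ‖u + z - p‖) ^ 2) (by fun_prop) hbd2
    constructor
    · refine integrable_shift u ?_
      simpa only [add_sub_cancel_left] using hi
    · have h6 := integral_add_left_eq_self (μ := (volume : Measure V))
        (fun w => (1 + ‖w - p‖) ^ 2 * eta (w - u)) u
      rw [← h6]
      simp only [add_sub_cancel_left]
      have := integral_mul_eta_le hN (G := fun z : V => (1 + ‖u + z - p‖) ^ 2) (by fun_prop)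
        (L := 2) (by norm_num) hbd2 hbd
      linarith
  have intE : ∀ u : V, Integrable (fun w => eta (w - u)) ∧ ∫ w, eta (w - u) = 1 := by
    intro u
    constructor
    · refine integrable_shift u ?_
      simpa only [add_sub_cancel_left] using (integrable_eta : Integrable (eta : V → ℝ))
    · have h6 := integral_add_left_eq_self (μ := (volume : Measure V)) (fun w => eta (w - u)) u
      rw [← h6]
      simp only [add_sub_cancel_left]
      exact integral_eta
  rw [key x, key y, ← integral_sub (intg x hx) (intg y hy)]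
  set m : V := (1 / 2 : ℝ) • (x + y) with hm
  set q : ℝ := rexp (-b * ‖x - y‖ ^ 2 / 4) with hq
  have hq0 : 0 < q := Real.exp_pos _
  -- the dominating function
  have i1 : Integrable (fun w : V => eta (w - x) + eta (w - y) - 2 * (q * eta (w - m))) :=
    ((intE x).1.add (intE y).1).sub (((intE m).1.const_mul q).const_mul 2)
  have i2 : Integrable (fun w : V => (1 + ‖w - p‖) ^ 2 * eta (w - x) +
      (1 + ‖w - p‖) ^ 2 * eta (w - y)) := (intW x hx).1.add (intW y hy).1
  have hdom : ∀ w : V, ‖H w * eta (w - x) - H w * eta (w - y)‖ ≤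
      K * ((2 * t)⁻¹ * (eta (w - x) + eta (w - y) - 2 * (q * eta (w - m))) +
        t * ((1 + ‖w - p‖) ^ 2 * eta (w - x) + (1 + ‖w - p‖) ^ 2 * eta (w - y))) := by
    intro w
    rw [← mul_sub, Real.norm_eq_abs, abs_mul]
    have hcs := cross_sq x y w
    have h7 := pointwise (W := 1 + ‖w - p‖) (eta_nonneg (w - x)) (eta_nonneg (w - y))
      (c := q * eta (w - m)) (mul_nonneg hq0.le (eta_nonneg _)) hcs ht0
    calc |H w| * |eta (w - x) - eta (w - y)| ≤
        (K * (1 + ‖w - p‖)) * |eta (w - x) - eta (w - y)| :=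
          mul_le_mul_of_nonneg_right (hH w) (abs_nonneg _)
      _ = K * ((1 + ‖w - p‖) * |eta (w - x) - eta (w - y)|) := by ring
      _ ≤ _ := by
          apply mul_le_mul_of_nonneg_left _ hK
          refine h7.trans (le_of_eq ?_)
          ring
  have h8 := norm_integral_le_of_norm_le
    (((i1.const_mul (2 * t)⁻¹).add (i2.const_mul t)).const_mul K)
    (Filter.Eventually.of_forall hdom)
  rw [Real.norm_eq_abs] at h8
  refine h8.trans ?_
  simp only [Pi.add_apply]
  rw [integral_const_mul]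
  refine mul_le_mul_of_nonneg_left ?_ hK
  rw [integral_add (i1.const_mul _) (i2.const_mul _), integral_const_mul, integral_const_mul]
  have h9 : ∫ w : V, (eta (w - x) + eta (w - y) - 2 * (q * eta (w - m))) = 2 - 2 * q := by
    have i3 : Integrable (fun w : V => eta (w - x) + eta (w - y)) := (intE x).1.add (intE y).1
    rw [integral_sub i3 (((intE m).1.const_mul q).const_mul 2),
      integral_add (intE x).1 (intE y).1, integral_const_mul, integral_const_mul,
      (intE x).2, (intE y).2, (intE m).2]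
    ring
  have h10 : ∫ w : V, ((1 + ‖w - p‖) ^ 2 * eta (w - x) + (1 + ‖w - p‖) ^ 2 * eta (w - y)) ≤
      2 * (2 * (1 + R) ^ 2 + 4) := by
    rw [integral_add (intW x hx).1 (intW y hy).1]
    linarith [(intW x hx).2, (intW y hy).2]
  have h11 : 2 - 2 * q ≤ t ^ 2 / 2 := by
    have h12 := Real.add_one_le_exp (-b * ‖x - y‖ ^ 2 / 4)
    have h13 : t ^ 2 = b * ‖x - y‖ ^ 2 := by
      rw [ht, mul_pow, Real.sq_sqrt hb0.le]
    rw [h13]
    linarith
  rw [h9]
  have h14 : (2 * t)⁻¹ * (2 - 2 * q) ≤ t / 4 := by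
    calc (2 * t)⁻¹ * (2 - 2 * q) ≤ (2 * t)⁻¹ * (t ^ 2 / 2) :=
          mul_le_mul_of_nonneg_left h11 (by positivity)
      _ = t / 4 := by field_simp; ring
  have h15 : t * (∫ w : V, ((1 + ‖w - p‖) ^ 2 * eta (w - x) + (1 + ‖w - p‖) ^ 2 * eta (w - y)))
      ≤ t * (2 * (2 * (1 + R) ^ 2 + 4)) := mul_le_mul_of_nonneg_left h10 ht0.le
  nlinarith

end Pool.Agent.Helper802.HolderExt
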